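import Pool.Agent.Lib.MP_b77ea7_nt.Defs

/-! # MP_b77ea7_nt: 2-adic derivatives of maps of `D` (helper62) -/

set_option autoImplicit false

namespace TwoAdicQ

/-- The quotient `(h y - h x) / (y - x)` tends to `L` in `ℚ_2` when `y ∈ D`, `y ≠ x`, tends to `x`
for the 2-adic absolute value. -/
def HasDer (h : ℚ → ℚ) (x : ℚ) (L : ℚ_[2]) : Prop :=
  ∀ ε : ℝ, 0 < ε → ∃ δ : ℝ, 0 < δ ∧ ∀ y ∈ D, y ≠ x → ‖((y - x : ℚ) : ℚ_[2])‖ < δ →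
    ‖((h y - h x : ℚ) : ℚ_[2]) / ((y - x : ℚ) : ℚ_[2]) - L‖ < ε

end TwoAdicQ
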