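import Pool.Agent.Lib.MP_b77ea7_nt.Realize
import Pool.Agent.Lib.MP_b77ea7_ntL62.Defs62
import Pool.Agent.Lib.MP_b77ea7_ntH73.Main

/-! # MP_b77ea7_nt: conjugacies at the points with finite orbits (helper62) -/

set_option autoImplicit false

namespace TwoAdicQ

private theorem l_par_add (k : ℕ) (x : ℚ) (i m : ℕ) :
    Par k ((T k)^[i] x) m ↔ Par k x (m + i) := by
  unfold Par
  rw [Function.iterate_add_apply]

private theorem l_iter {k l : ℕ} (hk : Odd k) {g : ℚ → ℚ}
    (hg : ∀ x ∈ D, g (T k x) = T l (g x)) {x : ℚ} (hx : x ∈ D) (i : ℕ) :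
    g ((T k)^[i] x) = (T l)^[i] (g x) := by
  induction i with
  | zero => rfl
  | succ i ih =>
    rw [Function.iterate_succ_apply', Function.iterate_succ_apply', ← ih,
      hg _ (iter_mem hk hx i)]

private theorem l_mono {x y : ℚ} (hx : x ∈ D) (hy : y ∈ D) {m n : ℕ} (hmn : m ≤ n)
    (h : Near n x y) : Near m x y := by
  have h3 : Odd 3 := by decide
  exact (near_iff h3 hx hy m).2 fun i hi => (near_iff h3 hx hy n).1 h i (by omega)

/-- The step from one radius to all: the map is Lipschitz at `p`. -/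
private theorem l_upper {k l : ℕ} (hk : Odd k) (hl : Odd l) {g : ℚ → ℚ}
    (hm : Set.MapsTo g D D) (hg : ∀ x ∈ D, g (T k x) = T l (g x)) {p : ℚ} (hp : p ∈ D)
    (hf : FinOrb k p) (hcont : ∀ n, ∃ m, ∀ x ∈ D, Near m p x → Near n (g p) (g x)) :
    ∃ c, ∀ n, ∀ x ∈ D, Near (n + c) p x → Near n (g p) (g x) := by
  obtain ⟨i, j, hij, he⟩ := hf
  obtain ⟨d, rfl⟩ : ∃ d, j = i + d := ⟨j - i, by omega⟩
  obtain ⟨m₀, hm₀⟩ := hcont (i + d)
  obtain ⟨m, hmj, hmc⟩ : ∃ m, i + d ≤ m ∧ ∀ x ∈ D, Near m p x → Near (i + d) (g p) (g x) :=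
    ⟨max m₀ (i + d), le_max_right _ _, fun x hx h => hm₀ x hx (l_mono hp hx (le_max_left _ _) h)⟩
  have claim : ∀ t, ∀ x ∈ D, Near (m + t * d) p x → Near (i + d + t * d) (g p) (g x) := by
    intro t
    induction t with
    | zero =>
      intro x hx h
      rw [Nat.zero_mul, Nat.add_zero] at h ⊢
      exact hmc x hx h
    | succ t ih =>
      intro x hx h
      have hpar := (near_iff hk hp hx _).1 h
      obtain ⟨a, ha, b, hb, -, hbr⟩ := branch hk i (Par k p)
      have hzD : (T k)^[i + d] x ∈ D := iter_mem hk hx _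
      have hx' : a * (T k)^[i + d] x + b ∈ D := D_add (D_mul ha hzD) hb
      obtain ⟨tx, px⟩ := hbr _ hzD
      generalize a * (T k)^[i + d] x + b = x' at hx' tx px
      have h1 : Near (m + t * d) p x' := by
        refine (near_iff hk hp hx' _).2 fun u hu => ?_
        rcases Nat.lt_or_ge u i with h2 | h2
        · exact (px u h2).symm
        · obtain ⟨v, rfl⟩ : ∃ v, u = v + i := ⟨u - i, by omega⟩
          rw [← l_par_add k x', tx, l_par_add, ← l_par_add k p, he, l_par_add]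
          refine hpar _ ?_
          have e : m + (t + 1) * d = m + t * d + d := by ring
          omega
      have h2 := (near_iff hl (hm hp) (hm hx') _).1 (ih x' hx' h1)
      have h3 := (near_iff hl (hm hp) (hm hx) _).1
        (hmc x hx (l_mono hp hx (Nat.le_add_right _ _) h))
      refine (near_iff hl (hm hp) (hm hx) _).2 fun u hu => ?_
      rcases Nat.lt_or_ge u (i + d) with h4 | h4
      · exact h3 u h4
      · obtain ⟨v, rfl⟩ : ∃ v, u = v + (i + d) := ⟨u - (i + d), by omega⟩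
        have e : i + d + (t + 1) * d = i + d + t * d + d := by ring
        have h5 := h2 (v + i) (by omega)
        rw [← l_par_add l (g p), ← l_par_add l (g x), ← l_iter hk hg hp, ← l_iter hk hg hx, ← he,
          ← tx, l_iter hk hg hp, l_iter hk hg hx', l_par_add, l_par_add]
        exact h5
  refine ⟨m, fun n x hx h => ?_⟩
  have hd : 0 < d := by omega
  have e1 : n / d * d ≤ n := Nat.div_mul_le_self n d
  have e2 : n < n / d * d + d := by
    have := Nat.lt_div_mul_add hd (a := n)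
    omega
  refine l_mono (hm hp) (hm hx) ?_ (claim (n / d) x hx (l_mono hp hx ?_ h))
  · omega
  · omega

open Classical in
/-- Two points with the same first `k` parities. -/
private theorem l_diff {K : ℕ} (hK : Odd K) {x y : ℚ} (hx : x ∈ D) (hy : y ∈ D) (k : ℕ)
    (h : ∀ i < k, (Par K x i ↔ Par K y i)) :
    2 ^ k * ((T K)^[k] x - (T K)^[k] y) =
      (K : ℚ) ^ ((Finset.range k).filter fun i => ¬ Par K y i).card * (x - y) := by
  induction k with
  | zero => simp
  | succ k ih =>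
    have ih := ih fun i hi => h i (by omega)
    have hk := h k (by omega)
    rw [Function.iterate_succ_apply', Function.iterate_succ_apply', Finset.range_add_one,
      Finset.filter_insert]
    by_cases hp : Par K y k
    · have e1 : T K ((T K)^[k] y) = (T K)^[k] y / 2 := if_pos hp
      have e2 : T K ((T K)^[k] x) = (T K)^[k] x / 2 := if_pos (hk.2 hp)
      rw [if_neg (by simpa using hp), e1, e2, ← ih]
      ring
    · have e1 : T K ((T K)^[k] y) = (K * (T K)^[k] y + 1) / 2 := if_neg hp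
      have e2 : T K ((T K)^[k] x) = (K * (T K)^[k] x + 1) / 2 := if_neg fun h1 => hp (hk.1 h1)
      rw [if_pos hp, Finset.card_insert_of_notMem (by simp), e1, e2, pow_succ (K : ℚ)]
      linear_combination (K : ℚ) * ih

open Classical in
private theorem l_lin {h : ℚ → ℚ} (hc : Conj h) {p : ℚ} (hp : p ∈ D)
    (hcont : ∀ n, ∃ m, ∀ x ∈ D, Near m p x → Near n (h p) (h x)) (k : ℕ)
    (hk : (T 3)^[k] p = p) : ∃ m, ∀ x ∈ D, Near m p x →
      h (p + 2 ^ k / 3 ^ ((Finset.range k).filter fun i => ¬ Par 3 p i).card * (x - p)) =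
        h p + 2 ^ k / 5 ^ ((Finset.range k).filter fun i => ¬ Par 5 (h p) i).card *
          (h x - h p) := by
  have h3 : Odd 3 := by decide
  have h5 : Odd 5 := by decide
  obtain ⟨m, hm⟩ := hcont k
  refine ⟨m, fun x hx hxm => ?_⟩
  obtain ⟨a, ha, b, hb, -, hbr⟩ := branch h3 k (Par 3 p)
  have hy : a * x + b ∈ D := D_add (D_mul ha hx) hb
  obtain ⟨ty, py⟩ := hbr x hx
  generalize a * x + b = y at hy ty py
  have e1 := l_diff h3 hy hp k py
  rw [ty, hk] at e1
  have e2 : p + 2 ^ k / 3 ^ ((Finset.range k).filter fun i => ¬ Par 3 p i).card * (x - p) = y := by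
    rw [div_mul_eq_mul_div, e1]
    push_cast
    field_simp
    ring
  rw [e2]
  have h1 : Near (m + k) p y := by
    refine (near_iff h3 hp hy _).2 fun u hu => ?_
    rcases Nat.lt_or_ge u k with h2 | h2
    · exact (py u h2).symm
    · obtain ⟨v, rfl⟩ : ∃ v, u = v + k := ⟨u - k, by omega⟩
      rw [← l_par_add, ← l_par_add, ty, hk]
      exact (near_iff h3 hp hx _).1 hxm v (by omega)
  have h2 := hm y hy (l_mono hp hy (Nat.le_add_right _ _) h1)
  have h4 := (near_iff h5 (hc.1.mapsTo hp) (hc.1.mapsTo hy) k).1 h2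
  have e3 := l_diff h5 (hc.1.mapsTo hy) (hc.1.mapsTo hp) k fun i hi => (h4 i hi).symm
  rw [← l_iter h3 hc.2 hy, ← l_iter h3 hc.2 hp, ty, hk] at e3
  rw [div_mul_eq_mul_div, e3]
  push_cast
  field_simp
  ring

private theorem l_norm_gt {q : ℚ} (hq : q ∉ D) : 1 < ‖(q : ℚ_[2])‖ := by
  have h1 : (q : ℚ_[2]) = (q.num : ℚ_[2]) / (q.den : ℚ_[2]) := by
    conv_lhs => rw [← Rat.num_div_den q]
    push_cast
    rfl
  have hev : Even q.den := Nat.not_odd_iff_even.1 hq
  have hodd : Odd q.num.natAbs := by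
    rw [← Nat.not_even_iff_odd]
    intro h
    have h2 := q.reduced
    have h3 := Nat.dvd_gcd (even_iff_two_dvd.1 h) (even_iff_two_dvd.1 hev)
    rw [Nat.Coprime] at h2
    rw [h2] at h3
    exact absurd h3 (by decide)
  have h2 : ‖(q.num : ℚ_[2])‖ = 1 := by
    rw [Padic.norm_intCast_eq_one_iff]
    have := (Nat.coprime_two_left).2 hodd
    rw [Int.isCoprime_iff_gcd_eq_one]
    rw [Nat.Coprime, Nat.gcd_comm] at this
    exact this
  have h3 : ‖(q.den : ℚ_[2])‖ < 1 := by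
    rw [Padic.norm_natCast_lt_one_iff]
    exact even_iff_two_dvd.1 hev
  have h4 : 0 < ‖(q.den : ℚ_[2])‖ := by
    rw [norm_pos_iff]
    have := q.den_nz
    exact_mod_cast this
  rw [h1, norm_div, h2]
  exact (one_lt_div h4).2 h3

private theorem l_noder {h : ℚ → ℚ} (hc : Conj h) {p : ℚ} (hp : p ∈ D) {c : ℕ}
    (hlow : ∀ n, ∀ x ∈ D, Near (n + c) (h p) (h x) → Near n p x) : ¬ ∃ L : ℚ_[2], HasDer h p L := by
  rintro ⟨L, hL⟩
  have hL0 : L = 0 := RatDeriv.main (h := h) hc.1.mapsTo hc.2 hp hL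
  subst hL0
  have hε : (0 : ℝ) < (1 / 2) ^ (c + 1) := by positivity
  obtain ⟨δ, hδ, hder⟩ := hL _ hε
  obtain ⟨N, hN⟩ := exists_pow_lt_of_lt_one hδ (by norm_num : (1 / 2 : ℝ) < 1)
  have h2D : (2 : ℚ) ^ N ∈ D := by
    have := D_nat (2 ^ N)
    push_cast at this
    exact this
  have hy : p + 2 ^ N ∈ D := D_add hp h2D
  have hn : ¬ Near (N + 1) p (p + 2 ^ N) := by
    intro h1
    unfold Near at h1
    have e : (p - (p + 2 ^ N)) / 2 ^ (N + 1) = -(1 / 2) := by
      rw [pow_succ]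
      field_simp
      ring
    rw [e] at h1
    have h2 : Odd (-(1 / 2) : ℚ).den := h1
    have h3 : (-(1 / 2) : ℚ).den = 2 := by norm_num
    rw [h3] at h2
    exact absurd h2 (by decide)
  have hn2 : ¬ Near (N + 1 + c) (h p) (h (p + 2 ^ N)) := fun h1 => hn (hlow _ _ hy h1)
  have h1 := l_norm_gt hn2
  have h2 := hder (p + 2 ^ N) hy (by
    intro h0
    have : (0 : ℚ) < 2 ^ N := by positivity
    linarith) (by
    have e : p + 2 ^ N - p = 2 ^ N := by ring
    rw [e]
    have := RatDeriv.N_pow N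
    unfold RatDeriv.N at this
    rw [this]
    exact hN)
  have e : p + 2 ^ N - p = 2 ^ N := by ring
  rw [e, sub_zero] at h2
  have n1 := RatDeriv.N_pow N
  have n2 := RatDeriv.N_pow (N + 1 + c)
  have g1 : RatDeriv.N (h p - h (p + 2 ^ N)) / RatDeriv.N (2 ^ (N + 1 + c)) > 1 := by
    rw [← RatDeriv.N_div]
    exact h1
  have g2 : RatDeriv.N (h (p + 2 ^ N) - h p) / RatDeriv.N (2 ^ N) < (1 / 2) ^ (c + 1) := by
    unfold RatDeriv.N
    rw [← norm_div]
    exact h2
  have g3 : RatDeriv.N (h (p + 2 ^ N) - h p) = RatDeriv.N (h p - h (p + 2 ^ N)) := by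
    rw [← RatDeriv.N_neg]
    congr 1
    ring
  rw [g3] at g2
  rw [n2, gt_iff_lt, one_lt_div (by positivity)] at g1
  rw [n1, div_lt_iff₀ (by positivity)] at g2
  have e4 : ((1 : ℝ) / 2) ^ (N + 1 + c) = (1 / 2) ^ (c + 1) * (1 / 2) ^ N := by
    rw [← pow_add]
    congr 1
    omega
  rw [e4] at g1
  linarith

open Classical in
theorem lin62 (h : ℚ → ℚ) (hc : Conj h) (p : ℚ) (hp : p ∈ D) (hf : FinOrb 3 p)
    (hcont : ∀ n, ∃ m, ∀ x ∈ D, Near m p x → Near n (h p) (h x))
    (hinv : ∀ n, ∃ m, ∀ x ∈ D, Near m (h p) (h x) → Near n p x) :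
    (∃ c, ∀ n, ∀ x ∈ D, (Near (n + c) p x → Near n (h p) (h x)) ∧
      (Near (n + c) (h p) (h x) → Near n p x)) ∧
    (¬ ∃ L : ℚ_[2], HasDer h p L) ∧
    ∀ k, (T 3)^[k] p = p → ∃ m, ∀ x ∈ D, Near m p x →
      h (p + 2 ^ k / 3 ^ ((Finset.range k).filter fun i => ¬ Par 3 p i).card * (x - p)) =
        h p + 2 ^ k / 5 ^ ((Finset.range k).filter fun i => ¬ Par 5 (h p) i).card *
          (h x - h p) := by
  have h3 : Odd 3 := by decide
  have h5 : Odd 5 := by decide
  obtain ⟨c1, hc1⟩ := l_upper h3 h5 hc.1.mapsTo hc.2 hp hf hcont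
  -- the inverse
  obtain ⟨g, hg⟩ : ∃ g : ℚ → ℚ, ∀ x ∈ D, g (h x) = x :=
    ⟨Function.invFunOn h D, fun x hx => hc.1.injOn.leftInvOn_invFunOn hx⟩
  have gm : Set.MapsTo g D D := by
    intro y hy
    obtain ⟨x, hx, rfl⟩ := hc.1.surjOn hy
    rw [hg x hx]
    exact hx
  have gc : ∀ y ∈ D, g (T 5 y) = T 3 (g y) := by
    intro y hy
    obtain ⟨x, hx, rfl⟩ := hc.1.surjOn hy
    rw [hg x hx, ← hc.2 x hx, hg _ (T_mem h3 hx)]
  have gf : FinOrb 5 (h p) := by
    obtain ⟨i, j, hij, he⟩ := hf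
    exact ⟨i, j, hij, by rw [← l_iter h3 hc.2 hp, ← l_iter h3 hc.2 hp, he]⟩
  obtain ⟨c2, hc2⟩ := l_upper h5 h3 gm gc (hc.1.mapsTo hp) gf (fun n => by
    obtain ⟨m, hm⟩ := hinv n
    refine ⟨m, fun y hy hn => ?_⟩
    obtain ⟨x, hx, rfl⟩ := hc.1.surjOn hy
    rw [hg p hp, hg x hx]
    exact hm x hx hn)
  have low : ∀ n, ∀ x ∈ D, Near (n + c2) (h p) (h x) → Near n p x := by
    intro n x hx hn
    have := hc2 n (h x) (hc.1.mapsTo hx) hn
    rwa [hg p hp, hg x hx] at this
  refine ⟨⟨max c1 c2, fun n x hx => ⟨fun hn => hc1 n x hx (l_mono hp hx ?_ hn), fun hn =>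
    low n x hx (l_mono (hc.1.mapsTo hp) (hc.1.mapsTo hx) ?_ hn)⟩⟩, l_noder hc hp low,
    fun k hk => l_lin hc hp hcont k hk⟩
  · exact Nat.add_le_add_left (le_max_left _ _) _
  · exact Nat.add_le_add_left (le_max_right _ _) _

end TwoAdicQ
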